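import Pool.Agent.X13.MC.Growth

/-!
# `log M(n) / √n` tends to zero
-/

open Filter

namespace Pool.Agent.Results.MP_155ab0_nt.GrowthRateZero

/-- The set of integers occurring as a multinomial coefficient `n! / (i_1! ⋯ i_k!)` with `k ≥ 1`,
`i_1, …, i_k ≥ 0` and `i_1 + ⋯ + i_k = n`. -/
def multinomialValues (n : ℕ) : Set ℕ :=
  {m | ∃ k : ℕ, 1 ≤ k ∧ ∃ i : Fin k → ℕ, ∑ j, i j = n ∧
    m = n.factorial / ∏ j, (i j).factorial}

/-- `M(n)`: the number of distinct multinomial coefficients with upper entry `n`. -/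
noncomputable def M (n : ℕ) : ℕ := (multinomialValues n).ncard

/-- **`log M(n) / √n → 0`; in particular it does not converge to any positive constant.** -/
theorem result :
    Tendsto (fun n : ℕ => Real.log (M n) / Real.sqrt n) atTop (nhds 0) ∧
      ¬ ∃ C : ℝ, 0 < C ∧ Tendsto (fun n : ℕ => Real.log (M n) / Real.sqrt n) atTop (nhds C) := by
  have h : Tendsto (fun n : ℕ => Real.log (M n) / Real.sqrt n) atTop (nhds 0) :=
    X13.MC.tendsto_log_M
  refine ⟨h, ?_⟩
  rintro ⟨C, hC, hlim⟩
  exact hC.ne (tendsto_nhds_unique h hlim)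

end Pool.Agent.Results.MP_155ab0_nt.GrowthRateZero
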